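import Pool.Agent.K6.H74.HF.Stm

/-! Piece COV of call74h (helper52). -/

set_option autoImplicit false

namespace H74HF

theorem t_COV (hF : S_FROB) : S_COV := by
  intro K _ q γ hyp P hP
  obtain ⟨hfin, hcard, hγ⟩ := hyp
  have := hfin
  obtain ⟨-, hinv, hneg, hq0, -⟩ := hF K q hcard
  obtain ⟨hP1, hPi⟩ := hP
  by_cases hc : ∀ x ∈ P, herm q x (cc γ) = 0
  · exact Or.inl ⟨⟨hP1, hPi⟩, hc⟩
  right
  obtain ⟨x', -, hx'⟩ := finrank_eq_one_iff'.1 hP1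
  obtain ⟨x, hxP⟩ := x'
  have hgen : ∀ y ∈ P, ∃ c : K, c • x = y := fun y hy => by
    obtain ⟨c, hc⟩ := hx' ⟨y, hy⟩
    exact ⟨c, congrArg Subtype.val hc⟩
  have hsm : ∀ (c : K) (y z : Fin 4 → K), herm q (c • y) z = c * herm q y z := by
    intro c y z
    simp only [herm, Pi.smul_apply, smul_eq_mul]
    ring
  have hxc : herm q x (cc γ) ≠ 0 := by
    intro h
    apply hc
    intro y hy
    obtain ⟨c, rfl⟩ := hgen y hy
    rw [hsm, h, mul_zero]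
  have h0 : (0 : K) ^ q = 0 := zero_pow hq0
  have ecc : ∀ x : Fin 4 → K, herm q x (cc γ) = x 2 * γ ^ q + x 3 := by
    intro x
    show x 0 * (0 : K) ^ q + x 1 * (0 : K) ^ q + x 2 * γ ^ q + x 3 * (1 : K) ^ q = _
    rw [h0, one_pow]
    ring
  have enn : ∀ (μ : K) (x : Fin 4 → K), herm q x (nn q γ μ) = x 1 * μ ^ q - x 2 * γ + x 3 := by
    intro μ x
    show x 0 * (0 : K) ^ q + x 1 * μ ^ q + x 2 * (-γ ^ q) ^ q + x 3 * (1 : K) ^ q = _
    rw [h0, one_pow, hneg, hinv]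
    ring
  have iso : x 0 * x 1 ^ q + x 1 * x 0 ^ q + x 2 * x 3 ^ q + x 3 * x 2 ^ q = 0 := hPi x hxP
  rw [ecc] at hxc
  by_cases hx1 : x 1 = 0
  · rw [hx1, h0] at iso
    have hβ : γ * x 2 - x 3 ≠ 0 := by
      intro h
      have h3 : x 3 = γ * x 2 := by linear_combination -h
      rw [h3, mul_pow] at iso
      have h4 : (γ + γ ^ q) * (x 2 * x 2 ^ q) = 0 := by linear_combination iso
      have h5 := (mul_eq_zero.1 h4).resolve_left hγ
      have h6 : x 2 = 0 := by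
        rcases mul_eq_zero.1 h5 with h | h
        · exact h
        · exact (pow_eq_zero_iff hq0).1 h
      apply hxc
      rw [h3, h6]
      ring
    refine ⟨x 0 / ((γ * x 2 - x 3) / (γ + γ ^ q)), ⟨hP1, hPi⟩, Or.inr ?_⟩
    intro y hy
    obtain ⟨c, rfl⟩ := hgen y hy
    refine Submodule.smul_mem _ _ ?_
    rw [Submodule.mem_span_pair]
    refine ⟨(x 3 + γ ^ q * x 2) / (γ + γ ^ q), (γ * x 2 - x 3) / (γ + γ ^ q), ?_⟩
    funext i
    fin_cases i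
    · show (x 3 + γ ^ q * x 2) / (γ + γ ^ q) * 0 +
        (γ * x 2 - x 3) / (γ + γ ^ q) * (x 0 / ((γ * x 2 - x 3) / (γ + γ ^ q))) = x 0
      rw [mul_zero, zero_add, mul_div_cancel₀ _ (div_ne_zero hβ hγ)]
    · show (x 3 + γ ^ q * x 2) / (γ + γ ^ q) * 0 + (γ * x 2 - x 3) / (γ + γ ^ q) * 0 = x 1
      rw [hx1]
      ring
    · show (x 3 + γ ^ q * x 2) / (γ + γ ^ q) * 1 + (γ * x 2 - x 3) / (γ + γ ^ q) * 1 = x 2
      field_simp
      ring
    · show (x 3 + γ ^ q * x 2) / (γ + γ ^ q) * γ + (γ * x 2 - x 3) / (γ + γ ^ q) * (-γ ^ q) = x 3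
      field_simp
      ring
  · refine ⟨((γ * x 2 - x 3) / x 1) ^ q, ⟨hP1, hPi⟩, Or.inl ⟨?_, hc⟩⟩
    intro y hy
    obtain ⟨c, rfl⟩ := hgen y hy
    rw [hsm, enn, hinv]
    have : x 1 * ((γ * x 2 - x 3) / x 1) - x 2 * γ + x 3 = 0 := by
      field_simp
      ring
    rw [this, mul_zero]

end H74HF
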