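import Pool.Agent.K6.H74.HF.Stm

/-!
# Piece CUT: a nonisotropic vector cuts a generator in one point
(volunteer piece by helper78 for helper74's call74h)
-/

namespace H74HF

namespace CUTp

/-- `x ↦ herm q x a` as a linear form -/
noncomputable def L {K : Type} [Field K] (q : ℕ) (a : Fin 4 → K) : (Fin 4 → K) →ₗ[K] K where
  toFun x := herm q x a
  map_add' x y := by simp only [herm, Pi.add_apply]; ring
  map_smul' c x := by simp only [herm, Pi.smul_apply, smul_eq_mul, RingHom.id_apply]; ring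

theorem L_apply {K : Type} [Field K] (q : ℕ) (a x : Fin 4 → K) : L q a x = herm q x a := rfl

theorem one_dim {K V : Type} [Field K] [AddCommGroup V] [Module K V] (N : Submodule K V)
    (h : Module.finrank K N = 1) : ∃ v : N, v ≠ 0 ∧ ∀ w : N, ∃ c : K, c • v = w := by
  obtain ⟨v, hv, hv'⟩ := finrank_eq_one_iff'.mp h
  exact ⟨v, hv, hv'⟩

end CUTp

theorem t_CUT (_hF : S_FROB) (hG : S_GEN) : S_CUT := by
  intro K _ _ q hK W hW a ha
  obtain ⟨h2, hperp⟩ := hG K q hK W hW
  obtain ⟨y, hyW, hy⟩ : ∃ y ∈ W, herm q y a ≠ 0 := by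
    by_contra hcon
    push Not at hcon
    have haW := hperp a hcon
    exact ha (hW.1 a haW a haW)
  let f : W →ₗ[K] K := (CUTp.L q a).domRestrict W
  have hf : ∀ w : W, f w = herm q (w : Fin 4 → K) a := fun w => rfl
  have hsurj : LinearMap.range f = ⊤ := by
    rw [LinearMap.range_eq_top]
    intro c
    refine ⟨(c / herm q y a) • ⟨y, hyW⟩, ?_⟩
    rw [map_smul, hf, smul_eq_mul]
    exact div_mul_cancel₀ c hy
  have hrk := LinearMap.finrank_range_add_finrank_ker f
  rw [hsurj, finrank_top, Module.finrank_self, h2] at hrk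
  have hker : Module.finrank K (LinearMap.ker f) = 1 := by omega
  obtain ⟨v, hv0, hv⟩ := CUTp.one_dim (LinearMap.ker f) hker
  refine ⟨((v : W) : Fin 4 → K), (v : W).2, ?_, ?_, ?_⟩
  · intro h
    apply hv0
    apply Subtype.ext
    apply Subtype.ext
    exact h
  · have := v.2
    rw [LinearMap.mem_ker, hf] at this
    exact this
  · intro z hz hza
    have hmem : (⟨z, hz⟩ : W) ∈ LinearMap.ker f := by
      rw [LinearMap.mem_ker, hf]; exact hza
    obtain ⟨c, hc⟩ := hv ⟨⟨z, hz⟩, hmem⟩
    refine ⟨c, ?_⟩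
    have h1 := congrArg (fun t : LinearMap.ker f => ((t : W) : Fin 4 → K)) hc
    simpa using h1.symm

end H74HF
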