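import Pool.Agent.K6.H74.HF.Stm

/-!
Piece DIS: the ovoids of the family are pairwise disjoint.
-/

set_option autoImplicit false

namespace H74HF

namespace DIS

variable {K : Type} [Field K]

lemma herm_cc {q : ℕ} (hq : q ≠ 0) (γ : K) (x : Fin 4 → K) :
    herm q x (cc γ) = x 2 * γ ^ q + x 3 := by
  simp [herm, cc, zero_pow hq]

lemma herm_nn {q : ℕ} (hq : q ≠ 0) (h2 : ∀ x : K, (x ^ q) ^ q = x)
    (h3 : ∀ x : K, (-x) ^ q = -(x ^ q)) (γ μ : K) (x : Fin 4 → K) :
    herm q x (nn q γ μ) = x 1 * μ ^ q - x 2 * γ + x 3 := by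
  simp [herm, nn, zero_pow hq, h3, h2]
  ring

lemma herm_smul (q : ℕ) (a : K) (x y : Fin 4 → K) : herm q (a • x) y = a * herm q x y := by
  simp only [herm, Pi.smul_apply, smul_eq_mul]
  ring

lemma pt {q : ℕ} {P : Submodule K (Fin 4 → K)} (h : IsPoint q P) :
    ∃ v ∈ P, v ≠ 0 ∧ herm q v v = 0 ∧ ∀ w ∈ P, ∃ c : K, w = c • v := by
  obtain ⟨v, hv, hw⟩ := (finrank_eq_one_iff' (K := K) (V := P)).1 h.1
  refine ⟨v, v.2, fun h0 => hv (Subtype.ext h0), h.2 v v.2, fun w hwP => ?_⟩
  obtain ⟨c, hc⟩ := hw ⟨w, hwP⟩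
  exact ⟨c, by rw [← Submodule.coe_smul, hc]⟩

lemma coords {q : ℕ} {γ μ : K} {v : Fin 4 → K}
    (h : v ∈ Submodule.span K {cc γ, nn q γ μ}) :
    ∃ α β : K, v 0 = β * μ ∧ v 1 = 0 ∧ v 2 = α + β ∧ v 3 = α * γ - β * γ ^ q := by
  obtain ⟨α, β, h⟩ := Submodule.mem_span_pair.1 h
  refine ⟨α, β, ?_, ?_, ?_, ?_⟩
  · rw [← h]; simp [cc, nn]
  · rw [← h]; simp [cc, nn]
  · rw [← h]; simp [cc, nn]
  · rw [← h]; simp [cc, nn]; ring

lemma ext4 {v : Fin 4 → K} (h0 : v 0 = 0) (h1 : v 1 = 0) (h2 : v 2 = 0) (h3 : v 3 = 0) : v = 0 := by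
  funext i
  fin_cases i
  · exact h0
  · exact h1
  · exact h2
  · exact h3

end DIS

open DIS in
theorem t_DIS (hF : S_FROB) : S_DIS := by
  intro K _ q γ ⟨hfin, hcard, hγ⟩
  obtain ⟨h1, h2, h3, hq, -⟩ := hF K q hcard
  -- `a * (a * γ) ^ q + a * γ * a ^ q = 0` implies `a = 0`
  have hz : ∀ a : K, a * (a * γ) ^ q + a * γ * a ^ q = 0 → a = 0 := by
    intro a h
    have h' : a * a ^ q * (γ + γ ^ q) = 0 := by
      rw [← h, mul_pow]; ring
    rcases mul_eq_zero.1 h' with h'' | h''
    · rcases mul_eq_zero.1 h'' with h4 | h4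
      · exact h4
      · exact pow_eq_zero_iff hq |>.1 h4
    · exact absurd h'' hγ
  have hz' : ∀ b : K, b * (-(b * γ ^ q)) ^ q + (-(b * γ ^ q)) * b ^ q = 0 → b = 0 := by
    intro b h
    have h' : b * b ^ q * (γ + γ ^ q) = 0 := by
      rw [h3, mul_pow, h2] at h
      linear_combination -h
    rcases mul_eq_zero.1 h' with h'' | h''
    · rcases mul_eq_zero.1 h'' with h4 | h4
      · exact h4
      · exact pow_eq_zero_iff hq |>.1 h4
    · exact absurd h'' hγ
  -- a vector `α c` which is isotropic vanishes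
  have hαc : ∀ (v : Fin 4 → K) (α : K), herm q v v = 0 → v 0 = 0 → v 1 = 0 → v 2 = α →
      v 3 = α * γ → v = 0 := by
    intro v α hv h0 h1' h2' h3'
    have : α = 0 := by
      apply hz
      simp only [herm, h0, h1', h2', h3'] at hv
      simpa [zero_pow hq] using hv
    exact ext4 h0 h1' (by rw [h2', this]) (by rw [h3', this, zero_mul])
  constructor
  · intro μ
    rw [Set.disjoint_left]
    rintro P ⟨hP, hPc⟩ ⟨-, hPM⟩
    obtain ⟨v, hvP, hv0, hvv, -⟩ := pt hP
    rcases hPM with ⟨-, hn⟩ | hle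
    · exact hn hPc
    · obtain ⟨α, β, e0, e1, e2, e3⟩ := coords (hle hvP)
      have hc := hPc v hvP
      rw [herm_cc hq, e2, e3] at hc
      have hα : α = 0 := by
        have : α * (γ + γ ^ q) = 0 := by linear_combination hc
        exact (mul_eq_zero.1 this).resolve_right hγ
      subst hα
      have hβ : β = 0 := by
        apply hz'
        simp only [herm, e1, e2, e3] at hvv
        simpa [zero_pow hq] using hvv
      subst hβ
      exact hv0 (ext4 (by rw [e0]; ring) e1 (by rw [e2]; ring) (by rw [e3]; ring))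
  · intro μ μ' hμ
    rw [Set.disjoint_left]
    rintro P ⟨hP, hPM⟩ ⟨-, hPM'⟩
    obtain ⟨v, hvP, hv0, hvv, hgen⟩ := pt hP
    -- the mixed case
    have mixed : ∀ a b : K, (∀ x ∈ P, herm q x (nn q γ a) = 0) →
        P ≤ Submodule.span K {cc γ, nn q γ b} → False := by
      intro a b ha hb
      obtain ⟨α, β, e0, e1, e2, e3⟩ := coords (hb hvP)
      have hc := ha v hvP
      rw [herm_nn hq h2 h3, e1, e2, e3] at hc
      have hβ : β = 0 := by
        have : β * (γ + γ ^ q) = 0 := by linear_combination -hc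
        exact (mul_eq_zero.1 this).resolve_right hγ
      subst hβ
      exact hv0 (hαc v α hvv (by rw [e0]; ring) e1 (by rw [e2]; ring) (by rw [e3]; ring))
    rcases hPM with ⟨hn, hnc⟩ | hle
    · rcases hPM' with ⟨hn', -⟩ | hle'
      · -- both of the first kind
        have c1 := hn v hvP
        have c2 := hn' v hvP
        rw [herm_nn hq h2 h3] at c1 c2
        have hne : μ ^ q - μ' ^ q ≠ 0 := by
          intro h
          apply hμ
          rw [← h2 μ, ← h2 μ', sub_eq_zero.1 h]
        have e1 : v 1 = 0 := by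
          have : v 1 * (μ ^ q - μ' ^ q) = 0 := by linear_combination c1 - c2
          exact (mul_eq_zero.1 this).resolve_right hne
        have e3 : v 3 = v 2 * γ := by
          rw [e1] at c1
          linear_combination c1
        have e2 : v 2 = 0 := by
          apply hz
          simp only [herm, e1, e3] at hvv
          simpa [zero_pow hq] using hvv
        apply hnc
        intro x hx
        obtain ⟨c, rfl⟩ := hgen x hx
        rw [herm_smul, herm_cc hq, e3, e2]
        ring
      · exact mixed μ μ' hn hle'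
    · rcases hPM' with ⟨hn', -⟩ | hle'
      · exact mixed μ' μ hn' hle
      · obtain ⟨α, β, e0, e1, e2, e3⟩ := coords (hle hvP)
        obtain ⟨α', β', f0, f1, f2, f3⟩ := coords (hle' hvP)
        have g2 : α + β = α' + β' := by rw [← e2, f2]
        have g3 : α * γ - β * γ ^ q = α' * γ - β' * γ ^ q := by rw [← e3, f3]
        have g0 : β * μ = β' * μ' := by rw [← e0, f0]
        have hββ : β = β' := by
          have : (β - β') * (γ + γ ^ q) = 0 := by linear_combination γ * g2 - g3
          exact sub_eq_zero.1 ((mul_eq_zero.1 this).resolve_right hγ)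
        subst hββ
        have hβ : β = 0 := by
          have : β * (μ - μ') = 0 := by linear_combination g0
          exact (mul_eq_zero.1 this).resolve_right (sub_ne_zero.2 hμ)
        subst hβ
        exact hv0 (hαc v α hvv (by rw [e0]; ring) e1 (by rw [e2]; ring) (by rw [e3]; ring))

end H74HF
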