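import Pool.Agent.K6.H74.HF.Stm

namespace H74HF

/-- the final statement -/
def S_FIN : Prop := ∀ (K : Type) [Field K] [Finite K] (q : ℕ), Nat.card K = q ^ 2 →
  ∃ F : Set (Set (Submodule K (Fin 4 → K))),
    (∀ O ∈ F, IsOvoid q O) ∧ (∀ O ∈ F, ∀ O' ∈ F, O ≠ O' → Disjoint O O') ∧
    (∀ P, IsPoint q P → ∃ O ∈ F, P ∈ O) ∧ F.ncard = q ^ 2 + 1

theorem t_FIN (hF : S_FROB) (h0 : S_OV0) (hM : S_OVM) (hD : S_DIS) (hC : S_COV) (hN : S_NE) :
    S_FIN := by
  intro K _ _ q hq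
  obtain ⟨-, -, -, -, γ, hγ⟩ := hF K q hq
  have hyp : Hyp K q γ := ⟨inferInstance, hq, hγ⟩
  have A0 := h0 K q γ hyp
  have AM := fun μ => hM K q γ μ hyp
  obtain ⟨D1, D2⟩ := hD K q γ hyp
  obtain ⟨W, hW⟩ := hN K q hq
  have ne : ∀ O : Set (Submodule K (Fin 4 → K)), IsOvoid q O → O.Nonempty := by
    intro O hO
    obtain ⟨P, ⟨hP, -⟩, -⟩ := hO.2 W hW
    exact ⟨P, hP⟩
  have hinj : Function.Injective (OM q γ) := by
    intro μ μ' h
    by_contra hne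
    have := D2 μ μ' hne
    rw [h, disjoint_self] at this
    exact (ne _ (AM μ')).ne_empty this
  have hnot : O0 q γ ∉ Set.range (OM q γ) := by
    rintro ⟨μ, hμ⟩
    have := D1 μ
    rw [hμ, disjoint_self] at this
    exact (ne _ A0).ne_empty this
  refine ⟨insert (O0 q γ) (Set.range (OM q γ)), ?_, ?_, ?_, ?_⟩
  · rintro O (rfl | ⟨μ, rfl⟩)
    · exact A0
    · exact AM μ
  · rintro O (rfl | ⟨μ, rfl⟩) O' (rfl | ⟨μ', rfl⟩) hne
    · exact absurd rfl hne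
    · exact D1 μ'
    · exact (D1 μ).symm
    · exact D2 μ μ' (fun h => hne (by rw [h]))
  · intro P hP
    rcases hC K q γ hyp P hP with h | ⟨μ, h⟩
    · exact ⟨_, Set.mem_insert _ _, h⟩
    · exact ⟨_, Set.mem_insert_of_mem _ ⟨μ, rfl⟩, h⟩
  · have hfin : Finite (Set.range (OM q γ)) := Set.finite_range _
    rw [Set.ncard_insert_of_notMem hnot (Set.finite_range _), ← Set.image_univ,
      Set.ncard_image_of_injective _ hinj, Set.ncard_univ, hq]

end H74HF
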