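import Pool.Agent.K6.H74.HF.Stm

/-!
# Piece FROB (helper70, for helper74)
-/

namespace H74HF

theorem t_FROB : S_FROB := by
  intro K _ _ q hq
  classical
  have hfin : Fintype K := Fintype.ofFinite K
  rw [Nat.card_eq_fintype_card] at hq
  obtain ⟨p, hp⟩ := CharP.exists K
  obtain ⟨n, hpp, hc⟩ := FiniteField.card K p
  have hfact : Fact p.Prime := ⟨hpp⟩
  have hdvd : q ∣ p ^ (n : ℕ) := by
    rw [← hc, hq, sq]
    exact Dvd.intro q rfl
  obtain ⟨m, -, hm⟩ := (Nat.dvd_prime_pow hpp).1 hdvd
  have hcard : 1 < Fintype.card K := Fintype.one_lt_card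
  have hq2 : 2 ≤ q := by
    by_contra h
    have h1 : q ≤ 1 := by omega
    have h2 : q ^ 2 ≤ 1 := by
      calc q ^ 2 ≤ 1 ^ 2 := Nat.pow_le_pow_left h1 2
        _ = 1 := one_pow 2
    omega
  have hadd : ∀ x y : K, (x + y) ^ q = x ^ q + y ^ q := by
    intro x y
    rw [hm]
    exact add_pow_char_pow x y p m
  have hneg : ∀ x : K, (-x) ^ q = -(x ^ q) := by
    intro x
    have h := hadd (-x) x
    rw [neg_add_cancel, zero_pow (by omega)] at h
    exact eq_neg_of_add_eq_zero_left h.symm
  refine ⟨hadd, ?_, hneg, by omega, ?_⟩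
  · intro x
    rw [← pow_mul, ← sq, ← hq, FiniteField.pow_card]
  · by_contra hcon
    push Not at hcon
    have h2 : (1 : K) + 1 = 0 := by
      have := hcon 1
      rwa [one_pow] at this
    have hfix : ∀ x : K, x ^ q = x := by
      intro x
      have h3 := hcon x
      have h4 : x + x = 0 := by
        calc x + x = x * (1 + 1) := by ring
          _ = 0 := by rw [h2, mul_zero]
      exact add_left_cancel (h3.trans h4.symm)
    have h5 : ∀ u : Kˣ, u ^ (q - 1) = 1 := by
      intro u
      have h6 : (u : K) ^ (q - 1) * (u : K) = (u : K) := by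
        rw [← pow_succ]
        have h7 : q - 1 + 1 = q := by omega
        rw [h7]
        exact hfix u
      apply Units.ext
      rw [Units.val_pow_eq_pow_val, Units.val_one]
      exact mul_eq_right₀ u.ne_zero |>.1 h6
    have h8 := (FiniteField.forall_pow_eq_one_iff K (q - 1)).1 h5
    rw [hq] at h8
    have h9 := Nat.le_of_dvd (by omega) h8
    have h10 : q * 2 ≤ q ^ 2 := by
      rw [sq]
      exact Nat.mul_le_mul_left q hq2
    omega

end H74HF
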