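import Pool.Agent.K6.H74.HF.Stm

/-!
# Piece GEN: the generators are two-dimensional and self-orthogonal (helper21, for helper74)
-/

set_option autoImplicit false

namespace H74HF

namespace GEN

section

variable {K : Type} [Field K] {q : ℕ}

lemma smul_left (c : K) (x y : Fin 4 → K) : herm q (c • x) y = c * herm q x y := by
  simp only [herm, Pi.smul_apply, smul_eq_mul]
  ring

lemma add_left (x x' y : Fin 4 → K) : herm q (x + x') y = herm q x y + herm q x' y := by
  simp only [herm, Pi.add_apply]
  ring

lemma smul_right (c : K) (x y : Fin 4 → K) : herm q x (c • y) = c ^ q * herm q x y := by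
  simp only [herm, Pi.smul_apply, smul_eq_mul, mul_pow]
  ring

lemma add_right (ha : ∀ x y : K, (x + y) ^ q = x ^ q + y ^ q) (x y y' : Fin 4 → K) :
    herm q x (y + y') = herm q x y + herm q x y' := by
  simp only [herm, Pi.add_apply, ha]
  ring

lemma conj (ha : ∀ x y : K, (x + y) ^ q = x ^ q + y ^ q) (hq : ∀ x : K, (x ^ q) ^ q = x)
    (x y : Fin 4 → K) : herm q x y ^ q = herm q y x := by
  simp only [herm, ha, mul_pow, hq]
  ring

/-- the norm is surjective -/
lemma norm_surj [Finite K] (hcard : Nat.card K = q ^ 2) {a : K} (ha0 : a ≠ 0) (ha : a ^ q = a) :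
    ∃ c : K, c ^ (q + 1) = a := by
  have hq2 : 2 ≤ q := by
    by_contra h
    have h1 : 1 < Nat.card K := Finite.one_lt_card
    rw [hcard] at h1
    have h2 : q = 0 ∨ q = 1 := by omega
    rcases h2 with h2 | h2 <;> rw [h2] at h1 <;> norm_num at h1
  obtain ⟨g, hg⟩ := IsCyclic.exists_generator (α := Kˣ)
  have hord : orderOf g = q ^ 2 - 1 := by
    rw [orderOf_eq_card_of_forall_mem_zpowers hg, Nat.card_units, hcard]
  set u : Kˣ := Units.mk0 a ha0 with hu
  obtain ⟨k, hk⟩ : ∃ k : ℕ, g ^ k = u := by
    have h1 := mem_powers_iff_mem_zpowers.2 (hg u)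
    exact h1
  have hu1 : u ^ (q - 1) = 1 := by
    have h1 : u ^ q = u := by
      ext
      simpa [hu] using ha
    have h2 : u ^ (q - 1) * u = 1 * u := by
      rw [← pow_succ, Nat.sub_add_cancel (by omega), h1, one_mul]
    exact mul_right_cancel h2
  rw [← hk, ← pow_mul] at hu1
  have h1 := orderOf_dvd_of_pow_eq_one hu1
  rw [hord] at h1
  have h2 : q ^ 2 - 1 = (q + 1) * (q - 1) := by
    have := Nat.sq_sub_sq q 1
    simpa using this
  rw [h2] at h1
  have h3 : q + 1 ∣ k := Nat.dvd_of_mul_dvd_mul_right (by omega) h1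
  obtain ⟨m, rfl⟩ := h3
  refine ⟨((g ^ m : Kˣ) : K), ?_⟩
  have h4 : (g ^ m) ^ (q + 1) = u := by
    rw [← hk, ← pow_mul, mul_comm]
  have h5 := congrArg (fun x : Kˣ => (x : K)) h4
  simpa [hu] using h5

end

end GEN

/-- **GEN** -/
theorem t_GEN (hF : S_FROB) (hP : S_PERP) : S_GEN := by
  intro K _ _ q hcard W hW
  obtain ⟨ha, hqq, -, -, -⟩ := hF K q hcard
  obtain ⟨hTI, hmax⟩ := hW
  obtain ⟨W', hW1, hW2, hdim⟩ := hP K q hcard W
  have hle : W ≤ W' := fun y hy => (hW1 y).2 fun x hx => hTI y hy x hx
  have hfin := Submodule.finrank_mono hle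
  -- isotropic vectors of `W'` are in `W`
  have key : ∀ z ∈ W', herm q z z = 0 → z ∈ W := by
    intro z hz hzz
    have h1 : IsTI q (W ⊔ Submodule.span K {z}) := by
      intro x hx y hy
      obtain ⟨w, hw, w2, hw2, rfl⟩ := Submodule.mem_sup.1 hx
      obtain ⟨v, hv, v2, hv2, rfl⟩ := Submodule.mem_sup.1 hy
      obtain ⟨a, rfl⟩ := Submodule.mem_span_singleton.1 hw2
      obtain ⟨b, rfl⟩ := Submodule.mem_span_singleton.1 hv2
      rw [GEN.add_left, GEN.add_right ha, GEN.add_right ha, GEN.smul_left, GEN.smul_left,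
        GEN.smul_right, GEN.smul_right, hTI w hw v hv, (hW2 z).1 hz w hw, (hW1 z).1 hz v hv, hzz]
      ring
    have h2 := hmax _ h1 le_sup_left
    rw [← h2]
    exact Submodule.mem_sup_right (Submodule.mem_span_singleton_self z)
  have hW2' : Module.finrank K W = 2 := by
    by_contra hne
    have hW1' : Module.finrank K W ≤ 1 := by omega
    obtain ⟨u, huW', huW⟩ : ∃ u ∈ W', u ∉ W := by
      by_contra h
      push Not at h
      have := Submodule.finrank_mono (show W' ≤ W from h)
      omega
    obtain ⟨v, hvW', hvW⟩ : ∃ v ∈ W', v ∉ W ⊔ Submodule.span K {u} := by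
      by_contra h
      push Not at h
      have h1 := Submodule.finrank_mono (show W' ≤ W ⊔ Submodule.span K {u} from h)
      have h2 := Submodule.finrank_add_le_finrank_add_finrank W (Submodule.span K {u})
      have h3 := finrank_span_le_card (R := K) ({u} : Set (Fin 4 → K))
      simp only [Set.toFinset_singleton, Finset.card_singleton] at h3
      omega
    have huu : herm q u u ≠ 0 := fun h => huW (key u huW' h)
    set v' : Fin 4 → K := v + (-(herm q v u / herm q u u)) • u with hv'
    have hv'W' : v' ∈ W' := W'.add_mem hvW' (W'.smul_mem _ huW')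
    have hv'W : v' ∉ W ⊔ Submodule.span K {u} := by
      intro h
      apply hvW
      have h1 : v = v' + (herm q v u / herm q u u) • u := by
        rw [hv', neg_smul, neg_add_cancel_right]
      rw [h1]
      exact Submodule.add_mem _ h (Submodule.smul_mem _ _
        (Submodule.mem_sup_right (Submodule.mem_span_singleton_self u)))
    have hvu : herm q v' u = 0 := by
      rw [hv', GEN.add_left, GEN.smul_left, neg_mul, div_mul_cancel₀ _ huu, add_neg_cancel]
    have huv : herm q u v' = 0 := by
      rw [← GEN.conj ha hqq, hvu]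
      apply zero_pow
      rintro rfl
      rw [zero_pow two_ne_zero] at hcard
      exact (Nat.card_pos (α := K)).ne' hcard
    have hvv : herm q v' v' ≠ 0 := fun h => hv'W (Submodule.mem_sup_left (key v' hv'W' h))
    clear_value v'
    obtain ⟨c, hc⟩ : ∃ c : K, c ^ (q + 1) = -(herm q v' v') / herm q u u := by
      apply GEN.norm_surj hcard
      · exact div_ne_zero (neg_ne_zero.2 hvv) huu
      · rw [div_pow, GEN.conj ha hqq]
        congr 1
        have h1 := ha (-(herm q v' v')) (herm q v' v')
        have hq0 : q ≠ 0 := by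
          rintro rfl
          rw [zero_pow two_ne_zero] at hcard
          exact (Nat.card_pos (α := K)).ne' hcard
        rw [neg_add_cancel, zero_pow hq0, GEN.conj ha hqq] at h1
        exact (eq_neg_of_add_eq_zero_left h1.symm)
    have hz : c • u + v' ∈ W := by
      apply key _ (W'.add_mem (W'.smul_mem _ huW') hv'W')
      rw [GEN.add_left, GEN.add_right ha, GEN.add_right ha, GEN.smul_left, GEN.smul_left,
        GEN.smul_right, GEN.smul_right, huv, hvu]
      have h1 : c * (c ^ q * herm q u u) = - herm q v' v' := by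
        rw [← mul_assoc, ← pow_succ', hc, div_mul_cancel₀ _ huu]
      rw [h1]
      ring
    apply hv'W
    have h1 : v' = (c • u + v') + (-c) • u := by
      rw [neg_smul]
      abel
    rw [h1]
    exact Submodule.add_mem _ (Submodule.mem_sup_left hz) (Submodule.smul_mem _ _
      (Submodule.mem_sup_right (Submodule.mem_span_singleton_self u)))
  refine ⟨hW2', fun a h => ?_⟩
  have h1 : W = W' := Submodule.eq_of_le_of_finrank_eq hle (by omega)
  rw [h1]
  exact (hW2 a).2 h

end H74HF
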