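import Pool.Agent.K6.H74.HF.Stm

namespace H74HF

theorem t_NE : S_NE := by
  intro K _ _ q hq
  have hq0 : q ≠ 0 := by
    rintro rfl
    have : Nat.card K ≠ 0 := Nat.card_pos.ne'
    rw [hq] at this
    simp at this
  let W : Submodule K (Fin 4 → K) :=
    { carrier := {x | x 1 = 0 ∧ x 3 = 0}
      add_mem' := by
        rintro x y ⟨h1, h2⟩ ⟨h3, h4⟩
        exact ⟨by simp [h1, h3], by simp [h2, h4]⟩
      zero_mem' := by simp
      smul_mem' := by
        rintro c x ⟨h1, h2⟩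
        exact ⟨by simp [h1], by simp [h2]⟩ }
  have hW : ∀ x, x ∈ W ↔ x 1 = 0 ∧ x 3 = 0 := fun x => Iff.rfl
  refine ⟨W, ?_, ?_⟩
  · intro x hx y hy
    obtain ⟨h1, h2⟩ := (hW x).1 hx
    obtain ⟨h3, h4⟩ := (hW y).1 hy
    simp [herm, h1, h2, h3, h4, hq0]
  · intro W' hT hle
    refine le_antisymm ?_ hle
    intro y hy
    have e0 : (![1, 0, 0, 0] : Fin 4 → K) ∈ W := by rw [hW]; simp
    have e2 : (![0, 0, 1, 0] : Fin 4 → K) ∈ W := by rw [hW]; simp
    have h1 := hT y hy _ (hle e0)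
    have h2 := hT y hy _ (hle e2)
    rw [hW]
    simp [herm, hq0] at h1 h2
    exact ⟨h1, h2⟩

end H74HF
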