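import Pool.Agent.K6.H74.HF.Stm

namespace H74HF

theorem OV0.herm_smul_left {K : Type} [Field K] (q : ℕ) (a : K) (x y : Fin 4 → K) :
    herm q (a • x) y = a * herm q x y := by
  unfold herm
  simp only [Pi.smul_apply, smul_eq_mul]
  ring

theorem t_OV0 (hF : S_FROB) (hC : S_CUT) : S_OV0 := by
  intro K _ q γ h
  obtain ⟨hfin, hcard, hγ⟩ := h
  haveI := hfin
  obtain ⟨_, _, _, q0, _⟩ := hF K q hcard
  refine ⟨fun P hP => hP.1, fun W hW => ?_⟩
  have hcc : herm q (cc γ) (cc γ) ≠ 0 := by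
    have : herm q (cc γ) (cc γ) = γ + γ ^ q := by
      simp [herm, cc, q0, add_comm]
    rw [this]; exact hγ
  obtain ⟨x0, hx0W, hx0, hx0c, huniq⟩ := hC K q hcard W hW (cc γ) hcc
  have hle : Submodule.span K {x0} ≤ W := by
    rw [Submodule.span_le]; intro z hz; rw [Set.mem_singleton_iff.1 hz]; exact hx0W
  refine ⟨Submodule.span K {x0}, ⟨⟨⟨finrank_span_singleton hx0, ?_⟩, ?_⟩, hle⟩, ?_⟩
  · intro x hx
    exact hW.1 x (hle hx) x (hle hx)
  · intro x hx
    obtain ⟨a, rfl⟩ := Submodule.mem_span_singleton.1 hx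
    rw [OV0.herm_smul_left, hx0c, mul_zero]
  · rintro P ⟨⟨hPt, hPc⟩, hPW⟩
    have hle' : P ≤ Submodule.span K {x0} := by
      intro z hz
      obtain ⟨k, hk⟩ := huniq z (hPW hz) (hPc z hz)
      exact Submodule.mem_span_singleton.2 ⟨k, hk.symm⟩
    exact Submodule.eq_of_le_of_finrank_eq hle' (by rw [hPt.1, finrank_span_singleton hx0])

end H74HF
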