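import Pool.Agent.K6.H74.HF.Stm

/-! # Piece OVM (by helper71): the switched sets are ovoids -/

set_option autoImplicit false
set_option linter.all false

namespace H74HF

namespace OVM

variable {K : Type} [Field K] {q : ℕ}

theorem h_add_left (x y z : Fin 4 → K) : herm q (x + y) z = herm q x z + herm q y z := by
  unfold herm
  simp only [Pi.add_apply]
  ring

theorem h_smul_left (a : K) (x z : Fin 4 → K) : herm q (a • x) z = a * herm q x z := by
  unfold herm
  simp only [Pi.smul_apply, smul_eq_mul]
  ring

theorem h_smul_right (a : K) (x z : Fin 4 → K) : herm q x (a • z) = a ^ q * herm q x z := by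
  unfold herm
  simp only [Pi.smul_apply, smul_eq_mul, mul_pow]
  ring

theorem h_add_right (hF : ∀ x y : K, (x + y) ^ q = x ^ q + y ^ q) (x y z : Fin 4 → K) :
    herm q x (y + z) = herm q x y + herm q x z := by
  unfold herm
  simp only [Pi.add_apply, hF]
  ring

theorem h_symm (hF : ∀ x y : K, (x + y) ^ q = x ^ q + y ^ q) (hI : ∀ x : K, (x ^ q) ^ q = x)
    (x y : Fin 4 → K) : herm q y x = (herm q x y) ^ q := by
  unfold herm
  rw [hF, hF, hF, mul_pow, mul_pow, mul_pow, mul_pow, hI, hI, hI, hI]
  ring

theorem gen_of_rank {P : Submodule K (Fin 4 → K)} (h : Module.finrank K P = 1) :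
    ∃ z : Fin 4 → K, z ≠ 0 ∧ z ∈ P ∧ ∀ x ∈ P, ∃ k : K, x = k • z := by
  obtain ⟨v, hv, hw⟩ := finrank_eq_one_iff'.1 h
  refine ⟨v, fun h0 => hv (Subtype.ext h0), v.2, fun x hx => ?_⟩
  obtain ⟨k, hk⟩ := hw ⟨x, hx⟩
  exact ⟨k, (congrArg Subtype.val hk).symm⟩

theorem eq_span {P : Submodule K (Fin 4 → K)} {z : Fin 4 → K} (hz : z ∈ P)
    (h : ∀ x ∈ P, ∃ k : K, x = k • z) : P = Submodule.span K {z} := by
  apply le_antisymm
  · intro x hx
    obtain ⟨k, rfl⟩ := h x hx
    exact Submodule.smul_mem _ _ (Submodule.mem_span_singleton_self z)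
  · rw [Submodule.span_singleton_le_iff_mem]
    exact hz

theorem span_smul {z z' : Fin 4 → K} (hz' : z' ≠ 0) {k : K} (h : z' = k • z) :
    Submodule.span K {z'} = Submodule.span K {z} := by
  have hk : k ≠ 0 := by
    rintro rfl
    rw [zero_smul] at h
    exact hz' h
  rw [h]
  exact Submodule.span_singleton_smul_eq (isUnit_iff_ne_zero.2 hk) z

end OVM

open OVM in
theorem t_OVM (hF : S_FROB) (hP : S_PERP) (hG : S_GEN) (hC : S_CUT) : S_OVM := by
  intro K _ q γ μ hyp
  obtain ⟨hfin, hcard, hγ⟩ := hyp
  haveI := hfin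
  obtain ⟨fa, fi, fn, fq, -⟩ := hF K q hcard
  set c : Fin 4 → K := cc γ with hc
  set n : Fin 4 → K := nn q γ μ with hn
  have z0 : (0 : K) ^ q = 0 := zero_pow fq
  have hcc : herm q c c = γ + γ ^ q := by
    rw [hc]
    simp only [herm, cc, Matrix.cons_val_zero, Matrix.cons_val_one, Matrix.cons_val]
    rw [z0, one_pow]
    ring
  have hnn : herm q n n = -(γ + γ ^ q) := by
    rw [hn]
    simp only [herm, nn, Matrix.cons_val_zero, Matrix.cons_val_one, Matrix.cons_val]
    rw [z0, one_pow, fn, fi]
    ring
  have hcn : herm q c n = 0 := by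
    rw [hc, hn]
    simp only [herm, cc, nn, Matrix.cons_val_zero, Matrix.cons_val_one, Matrix.cons_val]
    rw [z0, one_pow, fn, fi]
    ring
  have hnc : herm q n c = 0 := by
    rw [h_symm fa fi c n, hcn, z0]
  have hnn0 : herm q n n ≠ 0 := by
    rw [hnn]
    exact neg_ne_zero.2 hγ
  refine ⟨fun P hP => hP.1, fun W hW => ?_⟩
  obtain ⟨x0, hx0W, hx0, hx0n, huniq⟩ := hC K q hcard W hW n hnn0
  have hTI := hW.1
  by_cases hx0c : herm q x0 c = 0
  · -- the line `c n` meets `W`
    obtain ⟨U', hU1, -, hU3⟩ := hP K q hcard (Submodule.span K {x0})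
    rw [finrank_span_singleton hx0] at hU3
    have hW2 := (hG K q hcard W hW).1
    let D : Submodule K (Fin 4 → K) := Submodule.span K {c, n}
    have hind : LinearIndependent K ![c, n] := by
      rw [LinearIndependent.pair_iff]
      intro s t hst
      have h1 : herm q (s • c + t • n) c = 0 := by
        rw [hst]
        simp [herm]
      rw [h_add_left, h_smul_left, h_smul_left, hcc, hnc, mul_zero, add_zero] at h1
      have h2 : herm q (s • c + t • n) n = 0 := by
        rw [hst]
        simp [herm]
      rw [h_add_left, h_smul_left, h_smul_left, hcn, hnn, mul_zero, zero_add] at h2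
      exact ⟨(mul_eq_zero.1 h1).resolve_right hγ,
        (mul_eq_zero.1 h2).resolve_right (neg_ne_zero.2 hγ)⟩
    have hD2 : Module.finrank K D = 2 := by
      have h1 := finrank_span_eq_card hind
      have h2 : Set.range ![c, n] = {c, n} := by
        simp [Matrix.range_cons, Matrix.range_empty, Set.pair_comm]
      rw [h2, Fintype.card_fin] at h1
      exact h1
    have hxs : ∀ y : Fin 4 → K, herm q y x0 = 0 → y ∈ U' := by
      intro y hy
      rw [hU1]
      intro x hx
      obtain ⟨k, rfl⟩ := Submodule.mem_span_singleton.1 hx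
      rw [h_smul_right, hy, mul_zero]
    have hsup : W ⊔ D ≤ U' := by
      apply sup_le
      · exact fun y hy => hxs y (hTI y hy x0 hx0W)
      · rw [Submodule.span_le]
        rintro y (rfl | rfl)
        · exact hxs _ (by rw [h_symm fa fi x0 c, hx0c, z0])
        · exact hxs _ (by rw [h_symm fa fi x0 n, hx0n, z0])
    have hdim := Submodule.finrank_sup_add_finrank_inf_eq W D
    have hle := Submodule.finrank_mono hsup
    have hne : W ⊓ D ≠ ⊥ := by
      intro h0
      rw [h0, finrank_bot] at hdim
      omega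
    obtain ⟨z, hz, hz0⟩ := Submodule.exists_mem_ne_zero_of_ne_bot hne
    obtain ⟨hzW, hzD⟩ := Submodule.mem_inf.1 hz
    obtain ⟨α, β, hzab⟩ := Submodule.mem_span_pair.1 hzD
    refine ⟨Submodule.span K {z}, ⟨⟨⟨finrank_span_singleton hz0, ?_⟩, Or.inr ?_⟩, ?_⟩, ?_⟩
    · intro x hx
      obtain ⟨k, rfl⟩ := Submodule.mem_span_singleton.1 hx
      exact hTI _ (W.smul_mem k hzW) _ (W.smul_mem k hzW)
    · rw [Submodule.span_singleton_le_iff_mem]
      exact hzD
    · rw [Submodule.span_singleton_le_iff_mem]
      exact hzW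
    · rintro P ⟨⟨⟨hP1, hP2⟩, hP3⟩, hPW⟩
      obtain ⟨z', hz'0, hz'P, hz'⟩ := gen_of_rank hP1
      rw [eq_span hz'P hz']
      rcases hP3 with ⟨h1, h2⟩ | h1
      · exfalso
        apply h2
        obtain ⟨k, hk⟩ := huniq z' (hPW hz'P) (h1 z' hz'P)
        intro x hx
        obtain ⟨k', rfl⟩ := hz' x hx
        rw [hk, h_smul_left, h_smul_left, hx0c, mul_zero, mul_zero]
      · obtain ⟨α', β', hab'⟩ := Submodule.mem_span_pair.1 (h1 hz'P)
        have hδ : ∀ a b a' b' : K, herm q (a • c + b • n) (a' • c + b' • n) =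
            (a * a' ^ q - b * b' ^ q) * (γ + γ ^ q) := by
          intro a b a' b'
          rw [h_add_left, h_smul_left, h_smul_left, h_add_right fa, h_add_right fa, h_smul_right,
            h_smul_right, h_smul_right, h_smul_right, hcc, hnn, hcn, hnc]
          ring
        have e1 : α * α ^ q = β * β ^ q := by
          have h := hTI z hzW z hzW
          rw [← hzab, hδ] at h
          exact sub_eq_zero.1 ((mul_eq_zero.1 h).resolve_right hγ)
        have e2 : α' * α ^ q = β' * β ^ q := by
          have h := hTI z' (hPW hz'P) z hzW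
          rw [← hzab, ← hab', hδ] at h
          exact sub_eq_zero.1 ((mul_eq_zero.1 h).resolve_right hγ)
        have hβ : β ≠ 0 := by
          intro h0
          rw [h0, zero_mul] at e1
          have hα : α = 0 := by
            rcases mul_eq_zero.1 e1 with h | h
            · exact h
            · exact eq_zero_of_pow_eq_zero h
          apply hz0
          rw [← hzab, hα, h0, zero_smul, zero_smul, add_zero]
        have hα : α ≠ 0 := by
          intro h0
          rw [h0, zero_mul] at e1
          rcases mul_eq_zero.1 e1.symm with h | h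
          · exact hβ h
          · exact pow_ne_zero _ hβ h
        have e3 : β' * α = α' * β := by
          apply mul_right_cancel₀ (pow_ne_zero q hβ)
          linear_combination (-α) * e2 + α' * e1
        apply span_smul hz'0 (k := α' / α)
        rw [← hab', ← hzab, smul_add, smul_smul, smul_smul]
        congr 2
        · field_simp
        · field_simp
          linear_combination e3
  · -- the point of `n^⊥`
    refine ⟨Submodule.span K {x0}, ⟨⟨⟨finrank_span_singleton hx0, ?_⟩, Or.inl ⟨?_, ?_⟩⟩, ?_⟩, ?_⟩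
    · intro x hx
      obtain ⟨k, rfl⟩ := Submodule.mem_span_singleton.1 hx
      exact hTI _ (W.smul_mem k hx0W) _ (W.smul_mem k hx0W)
    · intro x hx
      obtain ⟨k, rfl⟩ := Submodule.mem_span_singleton.1 hx
      rw [h_smul_left, hx0n, mul_zero]
    · intro h
      exact hx0c (h x0 (Submodule.mem_span_singleton_self x0))
    · rw [Submodule.span_singleton_le_iff_mem]
      exact hx0W
    · rintro P ⟨⟨⟨hP1, hP2⟩, hP3⟩, hPW⟩
      obtain ⟨z, hz0, hzP, hz⟩ := gen_of_rank hP1
      rw [eq_span hzP hz]
      rcases hP3 with ⟨h1, -⟩ | h1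
      · obtain ⟨k, hk⟩ := huniq z (hPW hzP) (h1 z hzP)
        exact span_smul hz0 hk
      · exfalso
        obtain ⟨α, β, hab⟩ := Submodule.mem_span_pair.1 (h1 hzP)
        have h2 := hTI z (hPW hzP) x0 hx0W
        rw [← hab, h_add_left, h_smul_left, h_smul_left, h_symm fa fi x0 c, h_symm fa fi x0 n, hx0n,
          z0, mul_zero, add_zero] at h2
        have hα : α = 0 := (mul_eq_zero.1 h2).resolve_right (pow_ne_zero q hx0c)
        have h3 := hP2 z hzP
        rw [← hab, hα, zero_smul, zero_add, h_smul_left, h_smul_right] at h3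
        have hβ : β = 0 := by
          by_contra hβ
          exact (mul_ne_zero hβ (mul_ne_zero (pow_ne_zero q hβ) hnn0)) h3
        apply hz0
        rw [← hab, hα, hβ, zero_smul, zero_smul, add_zero]

end H74HF
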