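import Pool.Agent.K6.H74.HF.Stm

/-! Piece PERP (helper48): orthogonal complements for the Hermitian form. -/

set_option autoImplicit false

namespace H74HF

theorem t_PERP (hF : S_FROB) : S_PERP := by
  intro K _ _ q hq U
  obtain ⟨hadd, hinv, hneg, hq0, -⟩ := hF K q hq
  let σ : K →+* K :=
    { toFun := fun x => x ^ q
      map_one' := one_pow q
      map_mul' := fun x y => mul_pow x y q
      map_zero' := zero_pow hq0
      map_add' := hadd }
  have hσ : RingHomSurjective σ := ⟨fun x => ⟨x ^ q, hinv x⟩⟩
  let s : (Fin 4 → K) →ₛₗ[σ] (Fin 4 → K) :=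
    { toFun := fun x => ![x 1 ^ q, x 0 ^ q, x 3 ^ q, x 2 ^ q]
      map_add' := fun x y => by
        funext i
        fin_cases i <;> simp [hadd]
      map_smul' := fun c x => by
        funext i
        fin_cases i <;> simp [σ, mul_pow] }
  have hpinj : ∀ x y : K, x ^ q = y ^ q → x = y := by
    intro x y h
    rw [← hinv x, ← hinv y, h]
  have sinj : Function.Injective s := by
    intro x y h
    have h0 := congrFun h 0
    have h1 := congrFun h 1
    have h2 := congrFun h 2
    have h3 := congrFun h 3
    funext i
    fin_cases i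
    · exact hpinj _ _ h1
    · exact hpinj _ _ h0
    · exact hpinj _ _ h3
    · exact hpinj _ _ h2
  let B : LinearMap.BilinForm K (Fin 4 → K) := Matrix.toBilin' (1 : Matrix (Fin 4) (Fin 4) K)
  have hB : B.Nondegenerate :=
    LinearMap.BilinForm.nondegenerate_toBilin'_of_det_ne_zero' _ (by simp)
  have hBs : ∀ x y, B (s x) y = herm q y x := by
    intro x y
    change Matrix.toBilin' (1 : Matrix (Fin 4) (Fin 4) K) (s x) y = _
    rw [Matrix.toBilin'_apply', Matrix.one_mulVec]
    change dotProduct (![x 1 ^ q, x 0 ^ q, x 3 ^ q, x 2 ^ q] : Fin 4 → K) y = _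
    simp [dotProduct, Fin.sum_univ_four, herm]
    ring
  have hsym : ∀ x y : Fin 4 → K, herm q x y = (herm q y x) ^ q := by
    intro x y
    unfold herm
    simp only [hadd, mul_pow, hinv]
    ring
  have hmem : ∀ y, y ∈ B.orthogonal (U.map s) ↔ ∀ x ∈ U, herm q y x = 0 := by
    intro y
    rw [LinearMap.BilinForm.mem_orthogonal_iff]
    constructor
    · intro h x hx
      rw [← hBs]
      exact h (s x) (Submodule.mem_map_of_mem hx)
    · intro h n hn
      obtain ⟨x, hx, rfl⟩ := Submodule.mem_map.mp hn
      change B (s x) y = 0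
      rw [hBs]
      exact h x hx
  refine ⟨B.orthogonal (U.map s), hmem, ?_, ?_⟩
  · intro y
    rw [hmem]
    constructor
    · intro h x hx
      rw [hsym, h x hx, zero_pow hq0]
    · intro h x hx
      rw [hsym, h x hx, zero_pow hq0]
  · have hcard : Nat.card (U.map s) = Nat.card U := by
      have h1 : ((U.map s : Submodule K (Fin 4 → K)) : Set (Fin 4 → K)) = s '' (U : Set (Fin 4 → K)) :=
        Submodule.map_coe s U
      have h2 := Nat.card_image_of_injective sinj (U : Set (Fin 4 → K))
      rw [← h1] at h2
      exact h2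
    rw [Module.natCard_eq_pow_finrank (K := K), Module.natCard_eq_pow_finrank (K := K) (V := U)]
      at hcard
    have h2 : 2 ≤ Nat.card K := Finite.one_lt_card
    have hfr : Module.finrank K (U.map s) = Module.finrank K U := Nat.pow_right_injective h2 hcard
    rw [LinearMap.BilinForm.finrank_orthogonal hB, hfr]
    have h4 : Module.finrank K (Fin 4 → K) = 4 := by simp
    have hle := Submodule.finrank_le U
    rw [h4] at hle ⊢
    omega

end H74HF
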