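import Mathlib

/-!
# The Hermitian surface `H(3,q^2)` is partitioned into `q^2+1` ovoids: vocabulary and pieces
-/

namespace H74HF

section vocab
variable {K : Type} [Field K]

/-- the Hermitian form of `H(3,q^2)` on `K^4`, `|K| = q^2` -/
def herm (q : ℕ) (x y : Fin 4 → K) : K := x 0 * y 1 ^ q + x 1 * y 0 ^ q + x 2 * y 3 ^ q + x 3 * y 2 ^ q

/-- the points of the polar space: isotropic one-dimensional subspaces -/
def IsPoint (q : ℕ) (P : Submodule K (Fin 4 → K)) : Prop :=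
  Module.finrank K P = 1 ∧ ∀ x ∈ P, herm q x x = 0

/-- totally isotropic subspaces -/
def IsTI (q : ℕ) (W : Submodule K (Fin 4 → K)) : Prop := ∀ x ∈ W, ∀ y ∈ W, herm q x y = 0

/-- the generators: maximal totally isotropic subspaces -/
def IsGen (q : ℕ) (W : Submodule K (Fin 4 → K)) : Prop :=
  IsTI q W ∧ ∀ W' : Submodule K (Fin 4 → K), IsTI q W' → W ≤ W' → W' = W

/-- ovoids: sets of points meeting every generator in exactly one point -/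
def IsOvoid (q : ℕ) (O : Set (Submodule K (Fin 4 → K))) : Prop :=
  (∀ P ∈ O, IsPoint q P) ∧ ∀ W, IsGen q W → ∃! P, P ∈ O ∧ P ≤ W

/-- the nonisotropic vector `c` -/
def cc (γ : K) : Fin 4 → K := ![0, 0, 1, γ]
/-- the nonisotropic vectors `n_μ`, orthogonal to `c` -/
def nn (q : ℕ) (γ μ : K) : Fin 4 → K := ![μ, 0, 1, -γ ^ q]

/-- the classical ovoid `c^⊥` -/
def O0 (q : ℕ) (γ : K) : Set (Submodule K (Fin 4 → K)) :=
  {P | IsPoint q P ∧ ∀ x ∈ P, herm q x (cc γ) = 0}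

/-- the switched ovoid `(n_μ^⊥ \ c^⊥) ∪ ⟨c, n_μ⟩` -/
def OM (q : ℕ) (γ μ : K) : Set (Submodule K (Fin 4 → K)) :=
  {P | IsPoint q P ∧ (((∀ x ∈ P, herm q x (nn q γ μ) = 0) ∧ ¬ ∀ x ∈ P, herm q x (cc γ) = 0) ∨
    P ≤ Submodule.span K {cc γ, nn q γ μ})}

/-- standing hypotheses: `|K| = q^2` and `γ + γ^q ≠ 0` -/
def Hyp (K : Type) [Field K] (q : ℕ) (γ : K) : Prop :=
  Finite K ∧ Nat.card K = q ^ 2 ∧ γ + γ ^ q ≠ 0

end vocab

/-- FROB: the map `x ↦ x^q` is an involutory automorphism and some `γ` has `γ + γ^q ≠ 0`. -/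
def S_FROB : Prop := ∀ (K : Type) [Field K] [Finite K] (q : ℕ), Nat.card K = q ^ 2 →
  (∀ x y : K, (x + y) ^ q = x ^ q + y ^ q) ∧ (∀ x : K, (x ^ q) ^ q = x) ∧
  (∀ x : K, (-x) ^ q = -(x ^ q)) ∧ q ≠ 0 ∧ ∃ γ : K, γ + γ ^ q ≠ 0

/-- PERP (may use S_FROB as hypothesis) -/
def S_PERP : Prop := ∀ (K : Type) [Field K] [Finite K] (q : ℕ), Nat.card K = q ^ 2 →
  ∀ U : Submodule K (Fin 4 → K), ∃ U' : Submodule K (Fin 4 → K),
    (∀ y, y ∈ U' ↔ ∀ x ∈ U, herm q y x = 0) ∧ (∀ y, y ∈ U' ↔ ∀ x ∈ U, herm q x y = 0) ∧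
    Module.finrank K U + Module.finrank K U' = 4

/-- GEN (may use S_FROB, S_PERP as hypotheses): generators are two-dimensional and self-orthogonal -/
def S_GEN : Prop := ∀ (K : Type) [Field K] [Finite K] (q : ℕ), Nat.card K = q ^ 2 →
  ∀ W : Submodule K (Fin 4 → K), IsGen q W → Module.finrank K W = 2 ∧
    ∀ a : Fin 4 → K, (∀ x ∈ W, herm q x a = 0) → a ∈ W

/-- CUT (may use S_FROB, S_GEN as hypotheses): a nonisotropic `a` cuts a generator in one point -/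
def S_CUT : Prop := ∀ (K : Type) [Field K] [Finite K] (q : ℕ), Nat.card K = q ^ 2 →
  ∀ W : Submodule K (Fin 4 → K), IsGen q W → ∀ a : Fin 4 → K, herm q a a ≠ 0 →
    ∃ x0 ∈ W, x0 ≠ 0 ∧ herm q x0 a = 0 ∧ ∀ z ∈ W, herm q z a = 0 → ∃ c : K, z = c • x0

/-- OV0 (may use S_FROB, S_CUT as hypotheses) -/
def S_OV0 : Prop := ∀ (K : Type) [Field K] (q : ℕ) (γ : K), Hyp K q γ → IsOvoid q (O0 q γ)

/-- OVM (may use S_FROB, S_PERP, S_GEN, S_CUT as hypotheses) -/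
def S_OVM : Prop := ∀ (K : Type) [Field K] (q : ℕ) (γ μ : K), Hyp K q γ → IsOvoid q (OM q γ μ)

/-- DIS (may use S_FROB as hypothesis) -/
def S_DIS : Prop := ∀ (K : Type) [Field K] (q : ℕ) (γ : K), Hyp K q γ →
  (∀ μ : K, Disjoint (O0 q γ) (OM q γ μ)) ∧
  (∀ μ μ' : K, μ ≠ μ' → Disjoint (OM q γ μ) (OM q γ μ'))

/-- COV (may use S_FROB as hypothesis) -/
def S_COV : Prop := ∀ (K : Type) [Field K] (q : ℕ) (γ : K), Hyp K q γ →
  ∀ P : Submodule K (Fin 4 → K), IsPoint q P → P ∈ O0 q γ ∨ ∃ μ : K, P ∈ OM q γ μ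

/-- NE: the ovoids are nonempty (may use S_FROB, S_OV0, S_OVM, S_GEN): a generator exists -/
def S_NE : Prop := ∀ (K : Type) [Field K] [Finite K] (q : ℕ), Nat.card K = q ^ 2 →
  ∃ W : Submodule K (Fin 4 → K), IsGen q W

end H74HF
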